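import Mathlib

set_option autoImplicit false
open Filter Topology MeasureTheory

namespace Pool.Agent.H570U

noncomputable section

variable {𝕜 : Type*} [RCLike 𝕜] {β : Type*} {X Y : Type*}
  [NormedAddCommGroup X] [NormedSpace 𝕜 X] [CompleteSpace X]
  [NormedAddCommGroup Y] [NormedSpace 𝕜 Y] [CompleteSpace Y]

/-- A sign read as a scalar. -/
def sg (𝕜 : Type*) [RCLike 𝕜] (u : ℤˣ) : 𝕜 := ((u : ℤ) : 𝕜)

lemma sg_mul (u v : ℤˣ) : sg 𝕜 (u * v) = sg 𝕜 u * sg 𝕜 v := by simp [sg]

lemma sg_one : sg 𝕜 1 = 1 := by simp [sg]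

lemma sg_neg_one : sg 𝕜 (-1) = -1 := by simp [sg]

lemma sg_mul_self (u : ℤˣ) : sg 𝕜 u * sg 𝕜 u = 1 := by
  rw [← sg_mul, Int.units_mul_self, sg_one]

lemma continuous_sg : Continuous (sg 𝕜) := continuous_of_discreteTopology

variable (b : UnconditionalSchauderBasis β 𝕜 X)

lemma summable_sg (θ : β → ℤˣ) (x : X) :
    Summable (fun i => sg 𝕜 (θ i) • (b.coord i x • b i)) := by
  classical
  have h := (b.expansion x).summable
  have h1 : Summable (Set.indicator {i | θ i = 1} (fun i => b.coord i x • b i)) :=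
    h.indicator _
  have h2 : (fun i => sg 𝕜 (θ i) • (b.coord i x • b i)) =
      fun i => (2 : 𝕜) • (Set.indicator {i | θ i = 1} (fun i => b.coord i x • b i)) i
        - b.coord i x • b i := by
    funext i
    by_cases hi : θ i = 1
    · simp [Set.indicator, hi, sg, two_smul]
    · have := (Int.units_eq_one_or (θ i)).resolve_left hi
      simp [Set.indicator, this, sg]
  rw [h2]
  exact (h1.const_smul _).sub h

omit [CompleteSpace X] in
lemma norm_sum_sg_le {C : ℝ} (hC : ∀ A : Finset β, ‖b.proj A‖ ≤ C) (θ : β → ℤˣ) (x : X)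
    (F : Finset β) :
    ‖∑ i ∈ F, sg 𝕜 (θ i) • (b.coord i x • b i)‖ ≤ 2 * C * ‖x‖ := by
  classical
  have h : ∑ i ∈ F, sg 𝕜 (θ i) • (b.coord i x • b i) =
      b.proj (F.filter (fun i => θ i = 1)) x - b.proj (F.filter (fun i => ¬ θ i = 1)) x := by
    rw [b.proj_apply, b.proj_apply, ← Finset.sum_filter_add_sum_filter_not F (fun i => θ i = 1),
      sub_eq_add_neg, ← Finset.sum_neg_distrib]
    congr 1
    · apply Finset.sum_congr rfl
      intro i hi
      rw [Finset.mem_filter] at hi
      simp [hi.2, sg]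
    · apply Finset.sum_congr rfl
      intro i hi
      rw [Finset.mem_filter] at hi
      have := (Int.units_eq_one_or (θ i)).resolve_left hi.2
      simp [this, sg]
  rw [h]
  calc _ ≤ ‖b.proj (F.filter (fun i => θ i = 1)) x‖
        + ‖b.proj (F.filter (fun i => ¬ θ i = 1)) x‖ := norm_sub_le _ _
    _ ≤ C * ‖x‖ + C * ‖x‖ :=
        add_le_add ((b.proj _).le_of_opNorm_le (hC _) x) ((b.proj _).le_of_opNorm_le (hC _) x)
    _ = _ := by ring

/-- The bound for the sign operators. -/
def K : ℝ := 2 * Classical.choose (UnconditionalSchauderBasis.exists_norm_proj_le b)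

lemma K_nonneg : 0 ≤ K b := by
  have h := Classical.choose_spec (UnconditionalSchauderBasis.exists_norm_proj_le b) ∅
  have h2 : 0 ≤ Classical.choose (UnconditionalSchauderBasis.exists_norm_proj_le b) :=
    (norm_nonneg _).trans h
  unfold K
  positivity

/-- The sign operator as a linear map. -/
def Dlin (θ : β → ℤˣ) : X →ₗ[𝕜] X where
  toFun x := ∑' i, sg 𝕜 (θ i) • (b.coord i x • b i)
  map_add' x y := by
    rw [← (summable_sg b θ x).tsum_add (summable_sg b θ y)]
    congr 1
    funext i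
    simp [add_smul, smul_add]
  map_smul' c x := by
    rw [RingHom.id_apply, ← (summable_sg b θ x).tsum_const_smul]
    congr 1
    funext i
    simp only [map_smul, smul_eq_mul, smul_smul]
    congr 1
    ring

/-- The sign operator. -/
def D (θ : β → ℤˣ) : X →L[𝕜] X :=
  (Dlin b θ).mkContinuous (K b) (by
    intro x
    have h : Tendsto (fun F : Finset β => ∑ i ∈ F, sg 𝕜 (θ i) • (b.coord i x • b i)) atTop
        (𝓝 (Dlin b θ x)) := by
      simpa [HasSum] using! (summable_sg b θ x).hasSum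
    refine le_of_tendsto h.norm (Eventually.of_forall fun F => ?_)
    exact norm_sum_sg_le b
      (Classical.choose_spec (UnconditionalSchauderBasis.exists_norm_proj_le b)) θ x F)

lemma D_apply (θ : β → ℤˣ) (x : X) :
    D b θ x = ∑' i, sg 𝕜 (θ i) • (b.coord i x • b i) := rfl

lemma norm_D_le (θ : β → ℤˣ) (x : X) : ‖D b θ x‖ ≤ K b * ‖x‖ :=
  (D b θ).le_of_opNorm_le (LinearMap.mkContinuous_norm_le _ (K_nonneg b) _) x

lemma D_basis (θ : β → ℤˣ) (j : β) : D b θ (b j) = sg 𝕜 (θ j) • b j := by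
  classical
  rw [D_apply, tsum_eq_single j]
  · rw [b.ortho]; simp
  · intro i hi
    rw [b.ortho]; simp [hi]

lemma D_const_mul (c : ℤˣ) (θ : β → ℤˣ) (x : X) :
    D b (fun i => c * θ i) x = sg 𝕜 c • D b θ x := by
  rw [D_apply, D_apply, ← (summable_sg b θ x).tsum_const_smul]
  congr 1
  funext i
  rw [sg_mul, mul_smul]

lemma continuous_D_apply (x : X) : Continuous fun θ : β → ℤˣ => D b θ x := by
  classical
  have hK := K_nonneg b
  have h : TendstoUniformly (fun (F : Finset β) (θ : β → ℤˣ) => D b θ (b.proj F x))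
      (fun θ => D b θ x) atTop := by
    rw [Metric.tendstoUniformly_iff]
    intro ε hε
    have h1 : Tendsto (fun F : Finset β => b.proj F x) atTop (𝓝 x) := by
      simpa using! b.tendsto_proj x
    have h2 : ∀ᶠ F in (atTop : Filter (Finset β)), dist (b.proj F x) x < ε / (K b + 1) :=
      (Metric.tendsto_nhds.mp h1) _ (by positivity)
    filter_upwards [h2] with F hF θ
    rw [dist_eq_norm, ← map_sub]
    have h3 : ‖x - b.proj F x‖ < ε / (K b + 1) := by
      rw [← dist_eq_norm, dist_comm]; exact hF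
    calc ‖D b θ (x - b.proj F x)‖ ≤ K b * ‖x - b.proj F x‖ := norm_D_le b θ _
      _ ≤ K b * (ε / (K b + 1)) := mul_le_mul_of_nonneg_left h3.le hK
      _ < ε := by
        rw [← mul_div_assoc, div_lt_iff₀ (by positivity)]
        nlinarith
  refine h.continuous (Frequently.of_forall fun F => ?_)
  have h4 : (fun θ : β → ℤˣ => D b θ (b.proj F x)) =
      fun θ => ∑ i ∈ F, b.coord i x • (sg 𝕜 (θ i) • b i) := by
    funext θ
    rw [b.proj_apply, map_sum]
    apply Finset.sum_congr rfl
    intro i _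
    rw [map_smul, D_basis]
  rw [h4]
  refine continuous_finsetSum _ fun i _ => ?_
  have h5 : Continuous fun θ : β → ℤˣ => sg 𝕜 (θ i) := continuous_sg.comp (continuous_apply i)
  exact (h5.smul continuous_const).const_smul _

lemma continuous_D : Continuous fun p : (β → ℤˣ) × X => D b p.1 p.2 := by
  rw [continuous_iff_continuousAt]
  rintro ⟨θ0, x0⟩
  have h : (fun p : (β → ℤˣ) × X => D b p.1 p.2) =
      fun p => D b p.1 (p.2 - x0) + D b p.1 x0 := by
    funext p; simp
  rw [h]
  have h1 : Tendsto (fun p : (β → ℤˣ) × X => D b p.1 (p.2 - x0)) (𝓝 (θ0, x0)) (𝓝 0) := by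
    refine squeeze_zero_norm (a := fun p : (β → ℤˣ) × X => K b * ‖p.2 - x0‖)
      (fun p => norm_D_le b p.1 _) ?_
    have h2 : Continuous fun p : (β → ℤˣ) × X => K b * ‖p.2 - x0‖ := by fun_prop
    have h3 := h2.tendsto (θ0, x0)
    simpa using h3
  have h4 : Tendsto (fun p : (β → ℤˣ) × X => D b p.1 x0) (𝓝 (θ0, x0)) (𝓝 (D b θ0 x0)) :=
    ((continuous_D_apply b x0).comp continuous_fst).tendsto (θ0, x0)
  have h5 := h1.add h4
  show Tendsto _ _ (𝓝 (D b θ0 (x0 - x0) + D b θ0 x0))
  simpa using h5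

end

end Pool.Agent.H570U
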