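import Mathlib
import Pool.Agent.H570U.Signs

set_option autoImplicit false
open Filter Topology MeasureTheory

namespace Pool.Agent.H570U

noncomputable section

section integ

variable {𝕜 : Type*} [RCLike 𝕜] {X Y : Type*}
  [NormedAddCommGroup X] [NormedSpace 𝕜 X]
  [NormedAddCommGroup Y] [NormedSpace 𝕜 Y] [NormedSpace ℝ Y] [IsScalarTower ℝ 𝕜 Y]

lemma exists_intM {G : Type*} [TopologicalSpace G] [CompactSpace G] [MeasurableSpace G]
    [BorelSpace G] [SecondCountableTopology G] (μ : Measure G) [IsProbabilityMeasure μ] {n : ℕ}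
    (M : G → ContinuousMultilinearMap 𝕜 (fun _ : Fin n => X) Y) (C : ℝ)
    (hC : ∀ g x, ‖M g x‖ ≤ C * ∏ i, ‖x i‖)
    (hM : ∀ x, Continuous fun g => M g x) :
    ∃ N : ContinuousMultilinearMap 𝕜 (fun _ : Fin n => X) Y, ∀ x, N x = ∫ g, M g x ∂μ := by
  have hint : ∀ x, Integrable (fun g => M g x) μ := fun x =>
    (hM x).integrable_of_hasCompactSupport (HasCompactSupport.of_compactSpace _)
  let N0 : MultilinearMap 𝕜 (fun _ : Fin n => X) Y :=
    { toFun := fun x => ∫ g, M g x ∂μ
      map_update_add' := by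
        intro _ m i x y
        rw [← integral_add (hint _) (hint _)]
        congr 1
        funext g
        simp
      map_update_smul' := by
        intro _ m i c x
        rw [← integral_smul]
        congr 1
        funext g
        simp }
  refine ⟨N0.mkContinuous C ?_, fun x => rfl⟩
  intro x
  have h := norm_integral_le_of_norm_le_const (μ := μ) (f := fun g => M g x)
    (C := C * ∏ i, ‖x i‖) (Eventually.of_forall fun g => hC g x)
  simpa using! h

lemma integral_eq_zero_of_odd {G : Type*} [TopologicalSpace G] [Group G] [IsTopologicalGroup G]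
    [MeasurableSpace G] [BorelSpace G] (μ : Measure G) [μ.IsMulLeftInvariant]
    (F : G → Y) (g : G) (h : ∀ θ, F (g * θ) = - F θ) : ∫ θ, F θ ∂μ = 0 := by
  have h1 := integral_mul_left_eq_self (μ := μ) F g
  have h2 : (∫ θ, F (g * θ) ∂μ) = - ∫ θ, F θ ∂μ := by
    rw [← integral_neg]
    congr 1
    funext θ
    exact h θ
  rw [h2] at h1
  have h3 : (2 : ℝ) • (∫ θ, F θ ∂μ) = 0 := by
    rw [two_smul]
    nth_rewrite 1 [← h1]
    simp
  exact (smul_eq_zero.mp h3).resolve_left two_ne_zero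

end integ

variable {𝕜 : Type*} [RCLike 𝕜] {β : Type*} {X Y : Type*}
  [NormedAddCommGroup X] [NormedSpace 𝕜 X] [CompleteSpace X]
  [NormedAddCommGroup Y] [NormedSpace 𝕜 Y]
  (b : UnconditionalSchauderBasis β 𝕜 X) {n : ℕ}

/-- The term attached to a map `f` of the index set. -/
def term (A : ContinuousMultilinearMap 𝕜 (fun _ : Fin n => X) Y) (f : Fin n → Fin n)
    (θ : Fin n → β → ℤˣ) (x : Fin n → X) : Y :=
  A (fun i => D b (θ i) (D b (θ (f i)) (x (f i))))

lemma continuous_term (A : ContinuousMultilinearMap 𝕜 (fun _ : Fin n => X) Y)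
    (f : Fin n → Fin n) (x : Fin n → X) : Continuous fun θ => term b A f θ x := by
  refine A.cont.comp (continuous_pi fun i => ?_)
  have h1 : Continuous fun θ : Fin n → β → ℤˣ => D b (θ (f i)) (x (f i)) :=
    (continuous_D_apply b _).comp (continuous_apply (f i))
  exact (continuous_D b).comp ((continuous_apply i).prodMk h1)

lemma norm_term_le (A : ContinuousMultilinearMap 𝕜 (fun _ : Fin n => X) Y)
    (σ : Equiv.Perm (Fin n)) (θ : Fin n → β → ℤˣ) (x : Fin n → X) :
    ‖term b A σ θ x‖ ≤ (‖A‖ * (K b * K b) ^ n) * ∏ i, ‖x i‖ := by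
  have hK := K_nonneg b
  calc ‖term b A σ θ x‖ ≤ ‖A‖ * ∏ i, ‖D b (θ i) (D b (θ (σ i)) (x (σ i)))‖ := A.le_opNorm _
    _ ≤ ‖A‖ * ∏ i, ((K b * K b) * ‖x (σ i)‖) := by
        refine mul_le_mul_of_nonneg_left ?_ (norm_nonneg _)
        refine Finset.prod_le_prod (fun i _ => norm_nonneg _) fun i _ => ?_
        calc _ ≤ K b * ‖D b (θ (σ i)) (x (σ i))‖ := norm_D_le b _ _
          _ ≤ K b * (K b * ‖x (σ i)‖) := mul_le_mul_of_nonneg_left (norm_D_le b _ _) hK
          _ = _ := by ring
    _ = _ := by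
        rw [Finset.prod_mul_distrib, Finset.prod_const, Finset.card_univ, Fintype.card_fin,
          Equiv.prod_comp σ (fun i => ‖x i‖)]
        ring

lemma sum_term (A : ContinuousMultilinearMap 𝕜 (fun _ : Fin n => X) Y)
    (θ : Fin n → β → ℤˣ) (x : Fin n → X) :
    A (fun i => D b (θ i) (∑ k, D b (θ k) (x k))) = ∑ f : Fin n → Fin n, term b A f θ x := by
  have h : (fun i => D b (θ i) (∑ k, D b (θ k) (x k))) =
      fun i => ∑ k, D b (θ i) (D b (θ k) (x k)) := by
    funext i
    rw [map_sum]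
  rw [h]
  exact A.toMultilinearMap.map_sum (fun i k => D b (θ i) (D b (θ k) (x k)))

lemma term_flip (A : ContinuousMultilinearMap 𝕜 (fun _ : Fin n => X) Y) (f : Fin n → Fin n)
    (k : Fin n) (hk : ∀ i, f i ≠ k) (θ : Fin n → β → ℤˣ) (x : Fin n → X) :
    term b A f ((fun i _ => if i = k then -1 else 1) * θ) x = - term b A f θ x := by
  let c : Fin n → ℤˣ := fun i => if i = k then -1 else 1
  have h1 : ∀ i, (((fun i _ => if i = k then -1 else 1) : Fin n → β → ℤˣ) * θ) i =
      fun j => c i * θ i j := by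
    intro i; funext j; simp [c]
  unfold term
  have h2 : (fun i => D b ((((fun i _ => if i = k then -1 else 1) : Fin n → β → ℤˣ) * θ) i)
      (D b ((((fun i _ => if i = k then -1 else 1) : Fin n → β → ℤˣ) * θ) (f i)) (x (f i)))) =
      fun i => sg 𝕜 (c i) • (D b (θ i) (D b (θ (f i)) (x (f i)))) := by
    funext i
    rw [h1, h1, D_const_mul, D_const_mul]
    have : c (f i) = 1 := by simp [c, hk i]
    rw [this, sg_one, one_smul]
  rw [h2]
  have h3 := A.toMultilinearMap.map_smul_univ (fun i => sg 𝕜 (c i))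
    (fun i => D b (θ i) (D b (θ (f i)) (x (f i))))
  have h4 : ∏ i, sg 𝕜 (c i) = -1 := by
    rw [Finset.prod_eq_single k]
    · simp [c, sg_neg_one]
    · intro i _ hi; simp [c, hi, sg_one]
    · intro h; exact absurd (Finset.mem_univ k) h
  rw [h4] at h3
  simpa using! h3

/-- The value of a term on basis vectors. -/
lemma term_basis (A : ContinuousMultilinearMap 𝕜 (fun _ : Fin n => X) Y)
    (f : Fin n → Fin n) (θ : Fin n → β → ℤˣ) (j : Fin n → β) :
    term b A f θ (fun i => b (j i)) =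
      (∏ i, (sg 𝕜 (θ (f i) (j (f i))) * sg 𝕜 (θ i (j (f i))))) • A (fun i => b (j (f i))) := by
  unfold term
  have h2 : (fun i => D b (θ i) (D b (θ (f i)) (b (j (f i))))) =
      fun i => (sg 𝕜 (θ (f i) (j (f i))) * sg 𝕜 (θ i (j (f i)))) • b (j (f i)) := by
    funext i
    rw [D_basis, map_smul, D_basis, smul_smul]
  rw [h2]
  exact A.toMultilinearMap.map_smul_univ _ _

lemma term_basis_fix (A : ContinuousMultilinearMap 𝕜 (fun _ : Fin n => X) Y)
    (σ : Equiv.Perm (Fin n)) (θ : Fin n → β → ℤˣ) (j : Fin n → β) (h : j ∘ σ = j) :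
    term b A σ θ (fun i => b (j i)) = A (fun i => b (j i)) := by
  rw [term_basis]
  have hj : ∀ i, j (σ i) = j i := fun i => congrFun h i
  have h1 : ∏ i, (sg 𝕜 (θ (σ i) (j (σ i))) * sg 𝕜 (θ i (j (σ i)))) = 1 := by
    rw [Finset.prod_mul_distrib, Equiv.prod_comp σ (fun i => sg 𝕜 (θ i (j i))),
      ← Finset.prod_mul_distrib]
    refine Finset.prod_eq_one fun i _ => ?_
    rw [hj i, sg_mul_self]
  rw [h1, one_smul]
  congr 1
  funext i
  rw [hj i]

lemma term_basis_flip (A : ContinuousMultilinearMap 𝕜 (fun _ : Fin n => X) Y)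
    (σ : Equiv.Perm (Fin n)) (j : Fin n → β) (h : j ∘ σ ≠ j) :
    ∃ g : Fin n → β → ℤˣ, ∀ θ, term b A σ (g * θ) (fun i => b (j i)) =
      - term b A σ θ (fun i => b (j i)) := by
  classical
  obtain ⟨k, hk⟩ := Function.ne_iff.mp h
  have hk' : j (σ k) ≠ j k := hk
  refine ⟨fun i a => if i = k ∧ a = j (σ k) then -1 else 1, fun θ => ?_⟩
  rw [term_basis, term_basis, ← neg_smul]
  congr 1
  have h1 : ∀ i, sg 𝕜 ((((fun i a => if i = k ∧ a = j (σ k) then -1 else 1) :
      Fin n → β → ℤˣ) * θ) (σ i) (j (σ i))) * sg 𝕜 ((((fun i a => if i = k ∧ a = j (σ k)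
      then -1 else 1) : Fin n → β → ℤˣ) * θ) i (j (σ i))) =
      (if i = k then (-1 : 𝕜) else 1) * (sg 𝕜 (θ (σ i) (j (σ i))) * sg 𝕜 (θ i (j (σ i)))) := by
    intro i
    have e1 : (((fun i a => if i = k ∧ a = j (σ k) then -1 else 1) :
      Fin n → β → ℤˣ) * θ) (σ i) (j (σ i)) = θ (σ i) (j (σ i)) := by
      have : ¬ (σ i = k ∧ j (σ i) = j (σ k)) := by
        rintro ⟨h1, h2⟩
        rw [h1] at h2
        exact hk' h2.symm
      simp [this]
    rw [e1]
    by_cases hi : i = k
    · subst hi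
      simp [sg]
    · simp [hi]
  rw [Finset.prod_congr rfl (fun i _ => h1 i), Finset.prod_mul_distrib]
  have h4 : ∏ i, (if i = k then (-1 : 𝕜) else 1) = -1 := by
    rw [Finset.prod_ite_eq']
    simp
  rw [h4]
  ring

end

end Pool.Agent.H570U
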