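import Mathlib
import Pool.Agent.H570U.Avg

set_option autoImplicit false
open Filter Topology MeasureTheory

namespace Pool.Agent.H570U

noncomputable section

variable {𝕜 : Type*} [RCLike 𝕜] {β : Type*} {X Y : Type*}
  [NormedAddCommGroup X] [NormedSpace 𝕜 X]
  [NormedAddCommGroup Y] [NormedSpace 𝕜 Y]
  {n : ℕ}

/-- Weak convergence of a sequence. -/
def WTo (𝕜 : Type*) [RCLike 𝕜] {X : Type*} [NormedAddCommGroup X] [NormedSpace 𝕜 X]
    (x : ℕ → X) (x0 : X) : Prop :=
  ∀ φ : X →L[𝕜] 𝕜, Tendsto (fun k => φ (x k)) atTop (𝓝 (φ x0))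

/-- Weak sequential continuity of a multilinear map. -/
def WSC (A : ContinuousMultilinearMap 𝕜 (fun _ : Fin n => X) Y) : Prop :=
  ∀ (x : ℕ → Fin n → X) (x0 : Fin n → X), (∀ i, WTo 𝕜 (fun k => x k i) (x0 i)) →
    Tendsto (fun k => A (x k)) atTop (𝓝 (A x0))

/-- Weak sequential continuity on the diagonal. -/
def DiagWSC (A : ContinuousMultilinearMap 𝕜 (fun _ : Fin n => X) Y) : Prop :=
  ∀ (x : ℕ → X) (x0 : X), WTo 𝕜 x x0 →
    Tendsto (fun k => A (fun _ => x k)) atTop (𝓝 (A (fun _ => x0)))

lemma bounded_of_weak (x : ℕ → X) (x0 : X) (h : WTo 𝕜 x x0) : ∃ R : ℝ, ∀ k, ‖x k‖ ≤ R := by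
  have h1 : ∃ C, ∀ k, ‖NormedSpace.inclusionInDoubleDual 𝕜 X (x k)‖ ≤ C := by
    apply banach_steinhaus
    intro φ
    obtain ⟨M, hM⟩ := isBounded_iff_forall_norm_le.mp
      (Metric.isBounded_range_of_tendsto _ (h φ))
    exact ⟨M, fun k => hM _ ⟨k, rfl⟩⟩
  obtain ⟨C, hC⟩ := h1
  refine ⟨C, fun k => ?_⟩
  have h2 := (NormedSpace.inclusionInDoubleDualLi (𝕜 := 𝕜) (E := X)).norm_map (x k)
  rw [← h2]
  exact hC k

variable [CompleteSpace X] (b : UnconditionalSchauderBasis β 𝕜 X)

lemma eq_zero_of_basis (A : ContinuousMultilinearMap 𝕜 (fun _ : Fin n => X) Y)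
    (h : ∀ j : Fin n → β, A (fun i => b (j i)) = 0) (x : Fin n → X) : A x = 0 := by
  classical
  have h1 : Tendsto (fun F : Finset β => A (fun i => b.proj F (x i))) atTop (𝓝 (A x)) := by
    refine (A.cont.tendsto x).comp ?_
    rw [tendsto_pi_nhds]
    intro i
    simpa using! b.tendsto_proj (x i)
  have h2 : ∀ F : Finset β, A (fun i => b.proj F (x i)) = 0 := by
    intro F
    simp_rw [b.proj_apply]
    have h3 := A.toMultilinearMap.map_sum_finset (fun i a => b.coord a (x i) • b a)
      (fun _ => F)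
    refine h3.trans (Finset.sum_eq_zero fun r _ => ?_)
    have h4 := A.toMultilinearMap.map_smul_univ (fun i => b.coord (r i) (x i))
      (fun i => b (r i))
    refine h4.trans ?_
    have h5 : A.toMultilinearMap (fun i => b (r i)) = 0 := h r
    rw [h5, smul_zero]
  simp_rw [h2] at h1
  exact (tendsto_nhds_unique h1 tendsto_const_nhds)

variable [Countable β] [NormedSpace ℝ Y] [IsScalarTower ℝ 𝕜 Y] [CompleteSpace Y]

lemma exists_avg (A : ContinuousMultilinearMap 𝕜 (fun _ : Fin n => X) Y)
    (hB : ∀ B : ContinuousMultilinearMap 𝕜 (fun _ : Fin n => X) Y, DiagWSC B) :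
    ∃ N : ContinuousMultilinearMap 𝕜 (fun _ : Fin n => X) Y,
      (∀ j : Fin n → β, ∃ s : ℕ, 0 < s ∧ s ≤ Fintype.card (Equiv.Perm (Fin n)) ∧
        (s = Nat.card {σ : Equiv.Perm (Fin n) // j ∘ σ = j}) ∧
        N (fun i => b (j i)) = (s : 𝕜) • A (fun i => b (j i))) ∧ WSC N := by
  classical
  let _ : MeasurableSpace (Fin n → β → ℤˣ) := borel _
  have : BorelSpace (Fin n → β → ℤˣ) := ⟨rfl⟩
  let μ : Measure (Fin n → β → ℤˣ) := Measure.haarMeasure ⊤
  have : IsProbabilityMeasure μ := ⟨by
    have := Measure.haarMeasure_self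
      (K₀ := (⊤ : TopologicalSpace.PositiveCompacts (Fin n → β → ℤˣ)))
    simpa using this⟩
  have hint : ∀ (f : Fin n → Fin n) (x : Fin n → X), Integrable (fun θ => term b A f θ x) μ :=
    fun f x => (continuous_term b A f x).integrable_of_hasCompactSupport
      (HasCompactSupport.of_compactSpace _)
  have hN : ∀ σ : Equiv.Perm (Fin n), ∃ N : ContinuousMultilinearMap 𝕜 (fun _ : Fin n => X) Y,
      ∀ x, N x = ∫ θ, term b A σ θ x ∂μ := by
    intro σ
    let M : (Fin n → β → ℤˣ) → ContinuousMultilinearMap 𝕜 (fun _ : Fin n => X) Y := fun θ =>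
      (A.compContinuousLinearMap (fun i => (D b (θ i)).comp (D b (θ (σ i))))).domDomCongr σ
    have hM : ∀ θ x, M θ x = term b A σ θ x := fun θ x => rfl
    obtain ⟨N, hN⟩ := exists_intM μ M (‖A‖ * (K b * K b) ^ n)
      (fun θ x => by rw [hM]; exact norm_term_le b A σ θ x)
      (fun x => by simp_rw [hM]; exact continuous_term b A σ x)
    exact ⟨N, fun x => by rw [hN]; rfl⟩
  choose N hN using hN
  refine ⟨∑ σ, N σ, ?_, ?_⟩
  · intro j
    refine ⟨Nat.card {σ : Equiv.Perm (Fin n) // j ∘ σ = j}, ?_, ?_, rfl, ?_⟩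
    · haveI : Nonempty {σ : Equiv.Perm (Fin n) // j ∘ σ = j} := ⟨⟨1, by funext i; simp⟩⟩
      exact Nat.card_pos
    · rw [Nat.card_eq_fintype_card]
      exact Fintype.card_subtype_le _
    · rw [_root_.sum_apply]
      have h1 : ∀ σ : Equiv.Perm (Fin n), N σ (fun i => b (j i)) =
          if j ∘ σ = j then A (fun i => b (j i)) else 0 := by
        intro σ
        rw [hN]
        split_ifs with h
        · have : (fun θ => term b A σ θ (fun i => b (j i))) = fun _ => A (fun i => b (j i)) := by
            funext θ; exact term_basis_fix b A σ θ j h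
          rw [this]; simp
        · obtain ⟨g, hg⟩ := term_basis_flip b A σ j h
          exact integral_eq_zero_of_odd μ _ g hg
      rw [Finset.sum_congr rfl (fun σ _ => h1 σ), ← Finset.sum_filter, Finset.sum_const,
        Nat.card_eq_fintype_card, Fintype.card_subtype, ← Nat.cast_smul_eq_nsmul 𝕜]
  · intro x x0 hx
    have hrep : ∀ x : Fin n → X, (∑ σ, N σ) x =
        ∫ θ, A (fun i => D b (θ i) (∑ k, D b (θ k) (x k))) ∂μ := by
      intro x
      rw [_root_.sum_apply]
      simp_rw [sum_term b A]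
      rw [integral_finsetSum _ (fun f _ => hint f x)]
      refine Finset.sum_of_injOn (fun σ : Equiv.Perm (Fin n) => (σ : Fin n → Fin n)) ?_ ?_ ?_ ?_
      · intro σ _ τ _ h
        exact Equiv.coe_fn_injective h
      · intro σ _; simp
      · intro f _ hf
        have hns : ¬ Function.Surjective f := by
          intro hs
          apply hf
          have hb : Function.Bijective f := ⟨Finite.injective_iff_surjective.mpr hs, hs⟩
          exact ⟨Equiv.ofBijective f hb, by simp, rfl⟩
        have h3 : ∃ k, ∀ i, f i ≠ k := by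
          by_contra hcon
          push Not at hcon
          exact hns hcon
        obtain ⟨k, hk⟩ := h3
        exact integral_eq_zero_of_odd μ _ _ (fun θ => term_flip b A f k hk θ x)
      · intro σ _
        exact hN σ x
    rw [hrep]
    simp_rw [hrep]
    have hR : ∃ R : ℝ, 0 ≤ R ∧ ∀ k i, ‖x k i‖ ≤ R := by
      choose R hR using fun i => bounded_of_weak (𝕜 := 𝕜) (fun k => x k i) (x0 i) (hx i)
      refine ⟨∑ i, |R i|, Finset.sum_nonneg fun i _ => abs_nonneg _, fun k i => ?_⟩
      calc ‖x k i‖ ≤ R i := hR i k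
        _ ≤ |R i| := le_abs_self _
        _ ≤ ∑ i, |R i| := Finset.single_le_sum (f := fun i => |R i|)
            (fun i _ => abs_nonneg _) (Finset.mem_univ i)
    obtain ⟨R, hR0, hR⟩ := hR
    have hK := K_nonneg b
    refine tendsto_integral_of_dominated_convergence
      (fun _ => ‖A‖ * ∏ _i : Fin n, (K b * ∑ _k : Fin n, K b * R)) ?_ ?_ ?_ ?_
    · intro k
      have hc : Continuous fun θ : Fin n → β → ℤˣ =>
          A (fun i => D b (θ i) (∑ m, D b (θ m) (x k m))) := by
        simp_rw [sum_term b A]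
        exact continuous_finsetSum _ fun f _ => continuous_term b A f (x k)
      exact hc.aestronglyMeasurable
    · exact integrable_const _
    · intro k
      refine Eventually.of_forall fun θ => ?_
      refine (A.le_opNorm _).trans (mul_le_mul_of_nonneg_left ?_ (norm_nonneg _))
      refine Finset.prod_le_prod (fun i _ => norm_nonneg _) fun i _ => ?_
      refine (norm_D_le b _ _).trans (mul_le_mul_of_nonneg_left ?_ hK)
      refine (norm_sum_le _ _).trans (Finset.sum_le_sum fun m _ => ?_)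
      exact (norm_D_le b _ _).trans (mul_le_mul_of_nonneg_left (hR k m) hK)
    · refine Eventually.of_forall fun θ => ?_
      have h6 := hB (A.compContinuousLinearMap (fun i => D b (θ i)))
        (fun k => ∑ m, D b (θ m) (x k m)) (∑ m, D b (θ m) (x0 m)) (by
          intro φ
          simp only [map_sum]
          refine tendsto_finsetSum _ fun m _ => ?_
          exact hx m (φ.comp (D b (θ m))))
      simpa using! h6

lemma WSC_of_support (hB : ∀ B : ContinuousMultilinearMap 𝕜 (fun _ : Fin n => X) Y, DiagWSC B)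
    (S : Finset ℕ) :
    0 ∉ S → ∀ A : ContinuousMultilinearMap 𝕜 (fun _ : Fin n => X) Y,
      (∀ j : Fin n → β, A (fun i => b (j i)) ≠ 0 →
        Nat.card {σ : Equiv.Perm (Fin n) // j ∘ σ = j} ∈ S) → WSC A := by
  classical
  induction S using Finset.induction_on with
  | empty =>
    intro _ A hA x x0 _
    have h0 : ∀ y, A y = 0 := eq_zero_of_basis b A (fun j => by
      by_contra h
      exact absurd (hA j h) (by simp))
    simp only [h0]
    exact tendsto_const_nhds
  | insert d S hd ih =>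
    intro h0 A hA
    have hd0 : d ≠ 0 := fun h => h0 (by simp [h])
    have hS0 : 0 ∉ S := fun h => h0 (Finset.mem_insert_of_mem h)
    obtain ⟨N, hN, hNW⟩ := exists_avg b A hB
    have hBW : WSC (N - (d : 𝕜) • A) := by
      refine ih hS0 _ fun j hj => ?_
      obtain ⟨s, _, _, hs, hNs⟩ := hN j
      have h1 : (N - (d : 𝕜) • A) (fun i => b (j i)) =
          ((s : 𝕜) - (d : 𝕜)) • A (fun i => b (j i)) := by
        rw [_root_.sub_apply, _root_.smul_apply, hNs, sub_smul]
      rw [h1] at hj
      have hA0 : A (fun i => b (j i)) ≠ 0 := fun h => hj (by rw [h, smul_zero])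
      have hsd : s ≠ d := fun h => hj (by rw [h, sub_self, zero_smul])
      have h2 := hA j hA0
      rw [← hs] at h2 ⊢
      rcases Finset.mem_insert.mp h2 with h | h
      · exact absurd h hsd
      · exact h
    intro x x0 hx
    have h3 := (hNW x x0 hx).sub (hBW x x0 hx)
    have hd1 : (d : 𝕜) ≠ 0 := by exact_mod_cast hd0
    have h4 : ∀ y, A y = (d : 𝕜)⁻¹ • (N y - (N - (d : 𝕜) • A) y) := by
      intro y
      rw [_root_.sub_apply, _root_.smul_apply, sub_sub_cancel,
        smul_smul, inv_mul_cancel₀ hd1, one_smul]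
    rw [h4]
    simp_rw [h4 (x _)]
    exact h3.const_smul _

include b in
theorem WSC_all (hB : ∀ B : ContinuousMultilinearMap 𝕜 (fun _ : Fin n => X) Y, DiagWSC B)
    (A : ContinuousMultilinearMap 𝕜 (fun _ : Fin n => X) Y) : WSC A := by
  classical
  refine WSC_of_support b hB (Finset.Icc 1 (Fintype.card (Equiv.Perm (Fin n)))) (by simp) A ?_
  intro j _
  rw [Finset.mem_Icc]
  have : Nonempty {σ : Equiv.Perm (Fin n) // j ∘ σ = j} := ⟨⟨1, by funext i; simp⟩⟩
  refine ⟨Nat.card_pos, ?_⟩
  rw [Nat.card_eq_fintype_card]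
  exact Fintype.card_subtype_le _

end

end Pool.Agent.H570U
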