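import Mathlib
import Pool.Agent.H570U.Main

set_option autoImplicit false
open Filter Topology MeasureTheory

namespace Pool.Agent.H570U

noncomputable section

variable {𝕜 : Type*} [RCLike 𝕜] {β γ : Type*} {X Y : Type*}
  [NormedAddCommGroup X] [NormedSpace 𝕜 X]
  [NormedAddCommGroup Y] [NormedSpace 𝕜 Y]
  {n : ℕ}

variable [CompleteSpace X] (b : UnconditionalSchauderBasis β 𝕜 X)

lemma eq_zero_of_basis_on (T : Set β) (A : ContinuousMultilinearMap 𝕜 (fun _ : Fin n => X) Y)
    (h : ∀ j : Fin n → β, (∀ i, j i ∈ T) → A (fun i => b (j i)) = 0) (x : Fin n → X)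
    (hx : ∀ i a, a ∉ T → b.coord a (x i) = 0) : A x = 0 := by
  classical
  have h1 : Tendsto (fun F : Finset β => A (fun i => b.proj F (x i))) atTop (𝓝 (A x)) := by
    refine (A.cont.tendsto x).comp ?_
    rw [tendsto_pi_nhds]
    intro i
    simpa using! b.tendsto_proj (x i)
  have h2 : ∀ F : Finset β, A (fun i => b.proj F (x i)) = 0 := by
    intro F
    simp_rw [b.proj_apply]
    have h3 := A.toMultilinearMap.map_sum_finset (fun i a => b.coord a (x i) • b a)
      (fun _ => F)
    refine h3.trans (Finset.sum_eq_zero fun r _ => ?_)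
    have h4 := A.toMultilinearMap.map_smul_univ (fun i => b.coord (r i) (x i))
      (fun i => b (r i))
    refine h4.trans ?_
    by_cases hr : ∀ i, r i ∈ T
    · have h5 : A.toMultilinearMap (fun i => b (r i)) = 0 := h r hr
      rw [h5, smul_zero]
    · push Not at hr
      obtain ⟨i, hi⟩ := hr
      have h6 : ∏ i, b.coord (r i) (x i) = 0 :=
        Finset.prod_eq_zero (Finset.mem_univ i) (hx i (r i) hi)
      rw [h6, zero_smul]
  simp_rw [h2] at h1
  exact (tendsto_nhds_unique h1 tendsto_const_nhds)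

lemma term_basis_flip_on (q : β → γ) (A : ContinuousMultilinearMap 𝕜 (fun _ : Fin n => X) Y)
    (σ : Equiv.Perm (Fin n)) (j : Fin n → β) (hq : ∀ i i', q (j i) = q (j i') → j i = j i')
    (h : j ∘ σ ≠ j) :
    ∃ g : Fin n → γ → ℤˣ, ∀ θ : Fin n → γ → ℤˣ,
      term b A σ (fun i a => (g * θ) i (q a)) (fun i => b (j i)) =
      - term b A σ (fun i a => θ i (q a)) (fun i => b (j i)) := by
  classical
  obtain ⟨k, hk⟩ := Function.ne_iff.mp h
  have hk' : j (σ k) ≠ j k := hk
  refine ⟨fun i a => if i = k ∧ a = q (j (σ k)) then -1 else 1, fun θ => ?_⟩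
  rw [term_basis, term_basis, ← neg_smul]
  congr 1
  have h1 : ∀ i, sg 𝕜 ((((fun i a => if i = k ∧ a = q (j (σ k)) then -1 else 1) :
      Fin n → γ → ℤˣ) * θ) (σ i) (q (j (σ i)))) *
      sg 𝕜 ((((fun i a => if i = k ∧ a = q (j (σ k))
      then -1 else 1) : Fin n → γ → ℤˣ) * θ) i (q (j (σ i)))) =
      (if i = k then (-1 : 𝕜) else 1) *
        (sg 𝕜 (θ (σ i) (q (j (σ i)))) * sg 𝕜 (θ i (q (j (σ i))))) := by
    intro i
    have e1 : (((fun i a => if i = k ∧ a = q (j (σ k)) then -1 else 1) :
      Fin n → γ → ℤˣ) * θ) (σ i) (q (j (σ i))) = θ (σ i) (q (j (σ i))) := by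
      have : ¬ (σ i = k ∧ q (j (σ i)) = q (j (σ k))) := by
        rintro ⟨h1, h2⟩
        rw [h1] at h2
        exact hk' (hq _ _ h2).symm
      simp [this]
    rw [e1]
    by_cases hi : i = k
    · subst hi
      simp [sg]
    · simp [hi]
  rw [Finset.prod_congr rfl (fun i _ => h1 i), Finset.prod_mul_distrib]
  have h4 : ∏ i, (if i = k then (-1 : 𝕜) else 1) = -1 := by
    rw [Finset.prod_ite_eq']
    simp
  rw [h4]
  ring

variable [Countable γ] [NormedSpace ℝ Y] [IsScalarTower ℝ 𝕜 Y] [CompleteSpace Y]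

lemma exists_avg_on (q : β → γ) (A : ContinuousMultilinearMap 𝕜 (fun _ : Fin n => X) Y)
    (hB : ∀ B : ContinuousMultilinearMap 𝕜 (fun _ : Fin n => X) Y, DiagWSC B) :
    ∃ N : ContinuousMultilinearMap 𝕜 (fun _ : Fin n => X) Y,
      (∀ j : Fin n → β, (∀ i i', q (j i) = q (j i') → j i = j i') →
        N (fun i => b (j i)) = ((Nat.card {σ : Equiv.Perm (Fin n) // j ∘ σ = j} : ℕ) : 𝕜) •
          A (fun i => b (j i))) ∧ WSC N := by
  classical
  let _ : MeasurableSpace (Fin n → γ → ℤˣ) := borel _
  have : BorelSpace (Fin n → γ → ℤˣ) := ⟨rfl⟩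
  let μ : Measure (Fin n → γ → ℤˣ) := Measure.haarMeasure ⊤
  have : IsProbabilityMeasure μ := ⟨by
    have := Measure.haarMeasure_self
      (K₀ := (⊤ : TopologicalSpace.PositiveCompacts (Fin n → γ → ℤˣ)))
    simpa using this⟩
  let e : (Fin n → γ → ℤˣ) → (Fin n → β → ℤˣ) := fun θ i a => θ i (q a)
  have he : Continuous e :=
    continuous_pi fun i => continuous_pi fun a => (continuous_apply (q a)).comp (continuous_apply i)
  have hint : ∀ (f : Fin n → Fin n) (x : Fin n → X),
      Integrable (fun θ => term b A f (e θ) x) μ :=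
    fun f x => ((continuous_term b A f x).comp he).integrable_of_hasCompactSupport
      (HasCompactSupport.of_compactSpace _)
  have hN : ∀ σ : Equiv.Perm (Fin n), ∃ N : ContinuousMultilinearMap 𝕜 (fun _ : Fin n => X) Y,
      ∀ x, N x = ∫ θ, term b A σ (e θ) x ∂μ := by
    intro σ
    let M : (Fin n → γ → ℤˣ) → ContinuousMultilinearMap 𝕜 (fun _ : Fin n => X) Y := fun θ =>
      (A.compContinuousLinearMap (fun i => (D b (e θ i)).comp (D b (e θ (σ i))))).domDomCongr σ
    have hM : ∀ θ x, M θ x = term b A σ (e θ) x := fun θ x => rfl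
    obtain ⟨N, hN⟩ := exists_intM μ M (‖A‖ * (K b * K b) ^ n)
      (fun θ x => by rw [hM]; exact norm_term_le b A σ (e θ) x)
      (fun x => by simp_rw [hM]; exact (continuous_term b A σ x).comp he)
    exact ⟨N, fun x => by rw [hN]; rfl⟩
  choose N hN using hN
  refine ⟨∑ σ, N σ, ?_, ?_⟩
  · intro j hj
    rw [_root_.sum_apply]
    have h1 : ∀ σ : Equiv.Perm (Fin n), N σ (fun i => b (j i)) =
        if j ∘ σ = j then A (fun i => b (j i)) else 0 := by
      intro σ
      rw [hN]
      split_ifs with h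
      · have : (fun θ => term b A σ (e θ) (fun i => b (j i))) =
            fun _ => A (fun i => b (j i)) := by
          funext θ; exact term_basis_fix b A σ (e θ) j h
        rw [this]; simp
      · obtain ⟨g, hg⟩ := term_basis_flip_on b q A σ j hj h
        exact integral_eq_zero_of_odd μ _ g hg
    rw [Finset.sum_congr rfl (fun σ _ => h1 σ), ← Finset.sum_filter, Finset.sum_const,
      Nat.card_eq_fintype_card, Fintype.card_subtype, ← Nat.cast_smul_eq_nsmul 𝕜]
  · intro x x0 hx
    have hrep : ∀ x : Fin n → X, (∑ σ, N σ) x =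
        ∫ θ, A (fun i => D b (e θ i) (∑ k, D b (e θ k) (x k))) ∂μ := by
      intro x
      rw [_root_.sum_apply]
      simp_rw [sum_term b A]
      rw [integral_finsetSum _ (fun f _ => hint f x)]
      refine Finset.sum_of_injOn (fun σ : Equiv.Perm (Fin n) => (σ : Fin n → Fin n)) ?_ ?_ ?_ ?_
      · intro σ _ τ _ h
        exact Equiv.coe_fn_injective h
      · intro σ _; simp
      · intro f _ hf
        have hns : ¬ Function.Surjective f := by
          intro hs
          apply hf
          have hb : Function.Bijective f := ⟨Finite.injective_iff_surjective.mpr hs, hs⟩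
          exact ⟨Equiv.ofBijective f hb, by simp, rfl⟩
        have h3 : ∃ k, ∀ i, f i ≠ k := by
          by_contra hcon
          push Not at hcon
          exact hns hcon
        obtain ⟨k, hk⟩ := h3
        exact integral_eq_zero_of_odd μ _ (fun i _ => if i = k then -1 else 1)
          (fun θ => term_flip b A f k hk (e θ) x)
      · intro σ _
        exact hN σ x
    rw [hrep]
    simp_rw [hrep]
    have hR : ∃ R : ℝ, 0 ≤ R ∧ ∀ k i, ‖x k i‖ ≤ R := by
      choose R hR using fun i => bounded_of_weak (𝕜 := 𝕜) (fun k => x k i) (x0 i) (hx i)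
      refine ⟨∑ i, |R i|, Finset.sum_nonneg fun i _ => abs_nonneg _, fun k i => ?_⟩
      calc ‖x k i‖ ≤ R i := hR i k
        _ ≤ |R i| := le_abs_self _
        _ ≤ ∑ i, |R i| := Finset.single_le_sum (f := fun i => |R i|)
            (fun i _ => abs_nonneg _) (Finset.mem_univ i)
    obtain ⟨R, hR0, hR⟩ := hR
    have hK := K_nonneg b
    refine tendsto_integral_of_dominated_convergence
      (fun _ => ‖A‖ * ∏ _i : Fin n, (K b * ∑ _k : Fin n, K b * R)) ?_ ?_ ?_ ?_
    · intro k
      have hc : Continuous fun θ : Fin n → γ → ℤˣ =>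
          A (fun i => D b (e θ i) (∑ m, D b (e θ m) (x k m))) := by
        simp_rw [sum_term b A]
        exact continuous_finsetSum _ fun f _ => (continuous_term b A f (x k)).comp he
      exact hc.aestronglyMeasurable
    · exact integrable_const _
    · intro k
      refine Eventually.of_forall fun θ => ?_
      refine (A.le_opNorm _).trans (mul_le_mul_of_nonneg_left ?_ (norm_nonneg _))
      refine Finset.prod_le_prod (fun i _ => norm_nonneg _) fun i _ => ?_
      refine (norm_D_le b _ _).trans (mul_le_mul_of_nonneg_left ?_ hK)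
      refine (norm_sum_le _ _).trans (Finset.sum_le_sum fun m _ => ?_)
      exact (norm_D_le b _ _).trans (mul_le_mul_of_nonneg_left (hR k m) hK)
    · refine Eventually.of_forall fun θ => ?_
      have h6 := hB (A.compContinuousLinearMap (fun i => D b (e θ i)))
        (fun k => ∑ m, D b (e θ m) (x k m)) (∑ m, D b (e θ m) (x0 m)) (by
          intro φ
          simp only [map_sum]
          refine tendsto_finsetSum _ fun m _ => ?_
          exact hx m (φ.comp (D b (e θ m))))
      simpa using! h6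

lemma WSC_of_support_on (q : β → γ) (T : Set β) (hq : Set.InjOn q T)
    (hB : ∀ B : ContinuousMultilinearMap 𝕜 (fun _ : Fin n => X) Y, DiagWSC B)
    (x : ℕ → Fin n → X) (x0 : Fin n → X) (hx : ∀ i, WTo 𝕜 (fun k => x k i) (x0 i))
    (hxT : ∀ k i a, a ∉ T → b.coord a (x k i) = 0)
    (hx0T : ∀ i a, a ∉ T → b.coord a (x0 i) = 0)
    (S : Finset ℕ) :
    0 ∉ S → ∀ A : ContinuousMultilinearMap 𝕜 (fun _ : Fin n => X) Y,
      (∀ j : Fin n → β, (∀ i, j i ∈ T) → A (fun i => b (j i)) ≠ 0 →
        Nat.card {σ : Equiv.Perm (Fin n) // j ∘ σ = j} ∈ S) →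
      Tendsto (fun k => A (x k)) atTop (𝓝 (A x0)) := by
  classical
  induction S using Finset.induction_on with
  | empty =>
    intro _ A hA
    have h0 : ∀ j : Fin n → β, (∀ i, j i ∈ T) → A (fun i => b (j i)) = 0 := by
      intro j hj
      by_contra h
      exact absurd (hA j hj h) (by simp)
    rw [eq_zero_of_basis_on b T A h0 x0 hx0T]
    have h1 : ∀ k, A (x k) = 0 := fun k => eq_zero_of_basis_on b T A h0 (x k) (hxT k)
    simp only [h1]
    exact tendsto_const_nhds
  | insert d S hd ih =>
    intro h0 A hA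
    have hd0 : d ≠ 0 := fun h => h0 (by simp [h])
    have hS0 : 0 ∉ S := fun h => h0 (Finset.mem_insert_of_mem h)
    obtain ⟨N, hN, hNW⟩ := exists_avg_on b q A hB
    have hBW := ih hS0 (N - (d : 𝕜) • A) (by
      intro j hjT hj
      have hNs := hN j (fun i i' h => hq (hjT i) (hjT i') h)
      have h1 : (N - (d : 𝕜) • A) (fun i => b (j i)) =
          (((Nat.card {σ : Equiv.Perm (Fin n) // j ∘ σ = j} : ℕ) : 𝕜) - (d : 𝕜)) •
            A (fun i => b (j i)) := by
        rw [_root_.sub_apply, _root_.smul_apply, hNs, sub_smul]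
      rw [h1] at hj
      have hA0 : A (fun i => b (j i)) ≠ 0 := fun h => hj (by rw [h, smul_zero])
      have hsd : Nat.card {σ : Equiv.Perm (Fin n) // j ∘ σ = j} ≠ d :=
        fun h => hj (by rw [h, sub_self, zero_smul])
      rcases Finset.mem_insert.mp (hA j hjT hA0) with h | h
      · exact absurd h hsd
      · exact h)
    have h3 := (hNW x x0 hx).sub hBW
    have hd1 : (d : 𝕜) ≠ 0 := by exact_mod_cast hd0
    have h4 : ∀ y, A y = (d : 𝕜)⁻¹ • (N y - (N - (d : 𝕜) • A) y) := by
      intro y
      rw [_root_.sub_apply, _root_.smul_apply, sub_sub_cancel,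
        smul_smul, inv_mul_cancel₀ hd1, one_smul]
    rw [h4]
    simp_rw [h4 (x _)]
    exact h3.const_smul _

omit [Countable γ] in
include b in
theorem WSC_all_gen (hB : ∀ B : ContinuousMultilinearMap 𝕜 (fun _ : Fin n => X) Y, DiagWSC B)
    (A : ContinuousMultilinearMap 𝕜 (fun _ : Fin n => X) Y) : WSC A := by
  classical
  intro x x0 hx
  have hb0 : ∀ a, b a ≠ 0 := by
    intro a h
    have h1 := b.ortho a a
    rw [show b.basis a = 0 from h] at h1
    simp at h1
  have hsupp : ∀ y : X, {a | b.coord a y ≠ 0}.Countable := by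
    intro y
    refine ((b.expansion y).summable.countable_support).mono ?_
    intro a ha
    exact smul_ne_zero ha (hb0 a)
  let T : Set β := (⋃ k, ⋃ i, {a | b.coord a (x k i) ≠ 0}) ∪ ⋃ i, {a | b.coord a (x0 i) ≠ 0}
  have hT : T.Countable :=
    (Set.countable_iUnion fun k => Set.countable_iUnion fun i => hsupp _).union
      (Set.countable_iUnion fun i => hsupp _)
  have : Countable T := hT.to_subtype
  let q : β → Option T := fun a => if h : a ∈ T then some ⟨a, h⟩ else none
  have hq : Set.InjOn q T := by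
    intro a ha a' ha' h
    have h1 : q a = some ⟨a, ha⟩ := dif_pos ha
    have h2 : q a' = some ⟨a', ha'⟩ := dif_pos ha'
    rw [h1, h2] at h
    simpa using h
  refine WSC_of_support_on b q T hq hB x x0 hx ?_ ?_
    (Finset.Icc 1 (Fintype.card (Equiv.Perm (Fin n)))) (by simp) A ?_
  · intro k i a ha
    by_contra h
    exact ha (Or.inl (Set.mem_iUnion.mpr ⟨k, Set.mem_iUnion.mpr ⟨i, h⟩⟩))
  · intro i a ha
    by_contra h
    exact ha (Or.inr (Set.mem_iUnion.mpr ⟨i, h⟩))
  · intro j _ _
    rw [Finset.mem_Icc]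
    have : Nonempty {σ : Equiv.Perm (Fin n) // j ∘ σ = j} := ⟨⟨1, by funext i; simp⟩⟩
    refine ⟨Nat.card_pos, ?_⟩
    rw [Nat.card_eq_fintype_card]
    exact Fintype.card_subtype_le _

end

end Pool.Agent.H570U
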